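import Pool.Agent.J4H43.MW.Stm

/-!
# Project MW: adapted bases (AD)
-/

set_option autoImplicit false

namespace Pool.Agent.J4H48.MW

open Polynomial Pool.Agent.Helper392_GT Pool.Agent.J4H43.FR Pool.Agent.J4H43.SW Pool.Agent.J4H43.MW

universe u

section

variable {k : Type u} [Field k] {r : ℕ}

open Classical in
/-- the first level -/
noncomputable def lev (T : ℕ → (Fin r → k) →ₗ[k] BB k) (c : Fin r → k) : ℕ :=
  if h : ∃ s, T s c ≠ 0 then Nat.find h else 0

theorem lev_lt (T : ℕ → (Fin r → k) →ₗ[k] BB k) (c : Fin r → k) (s' : ℕ) (h : s' < lev T c) :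
    T s' c = 0 := by
  classical
  unfold lev at h
  split_ifs at h with h1
  · exact not_not.1 (Nat.find_min h1 h)
  · omega

theorem lev_ne (T : ℕ → (Fin r → k) →ₗ[k] BB k) (c : Fin r → k) (h : ∃ s, T s c ≠ 0) :
    T (lev T c) c ≠ 0 := by
  classical
  unfold lev
  rw [dif_pos h]
  exact Nat.find_spec h

theorem lev_eq (T : ℕ → (Fin r → k) →ₗ[k] BB k) (c : Fin r → k) (s : ℕ)
    (h1 : ∀ s', s' < s → T s' c = 0) (h2 : T s c ≠ 0) : lev T c = s := by
  have h := lev_ne T c ⟨s, h2⟩
  rcases lt_trichotomy (lev T c) s with h3 | h3 | h3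
  · exact absurd (h1 _ h3) h
  · exact h3
  · exact absurd (lev_lt T c s h3) h2

/-- triangular -/
def Tri (n : Fin r → ℕ) (A : Matrix (Fin r) (Fin r) k) : Prop := ∀ i j, A i j ≠ 0 → n j ≤ n i

theorem Tri.mul {n : Fin r → ℕ} {A B : Matrix (Fin r) (Fin r) k} (hA : Tri n A) (hB : Tri n B) :
    Tri n (A * B) := by
  intro i j h
  rw [Matrix.mul_apply] at h
  obtain ⟨l, _, hl⟩ := Finset.exists_ne_zero_of_sum_ne_zero h
  exact (hB l j (right_ne_zero_of_mul hl)).trans (hA i l (left_ne_zero_of_mul hl))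

theorem Tri.one {n : Fin r → ℕ} : Tri n (1 : Matrix (Fin r) (Fin r) k) := by
  intro i j h
  rw [Matrix.one_apply] at h
  split_ifs at h with h1
  · rw [h1]
  · exact absurd rfl h

/-- replace a row of the identity matrix -/
def Em (j : Fin r) (c : Fin r → k) : Matrix (Fin r) (Fin r) k :=
  Matrix.of fun i m => if i = j then c m else if i = m then 1 else 0

/-- its inverse -/
noncomputable def Ei (j : Fin r) (c : Fin r → k) : Matrix (Fin r) (Fin r) k :=
  Matrix.of fun i m => if i = j then (if m = j then (c j)⁻¹ else -(c j)⁻¹ * c m) else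
    if i = m then 1 else 0

theorem Em_mul_Ei (j : Fin r) (c : Fin r → k) (hc : c j ≠ 0) : Em j c * Ei j c = 1 := by
  ext i l
  rw [Matrix.mul_apply, Matrix.one_apply]
  by_cases hij : i = j
  · subst hij
    rw [← Finset.add_sum_erase _ _ (Finset.mem_univ i)]
    have h1 : ∀ m ∈ Finset.univ.erase i, Em i c i m * Ei i c m l = if m = l then c m else 0 := by
      intro m hm
      have hm' : m ≠ i := Finset.ne_of_mem_erase hm
      simp only [Em, Ei, Matrix.of_apply, if_true, if_neg hm']
      split_ifs <;> simp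
    rw [Finset.sum_congr rfl h1, Finset.sum_ite_eq']
    by_cases hl : l = i
    · subst hl
      simp [Em, Ei, hc]
    · have : i ≠ l := fun h => hl h.symm
      simp only [Em, Ei, Matrix.of_apply, if_true, if_neg hl, if_neg this, Finset.mem_erase,
        Finset.mem_univ, and_true, ne_eq, hl, not_false_eq_true, if_false]
      field_simp
      try ring
  · rw [Finset.sum_eq_single i]
    · simp [Em, Ei, hij]
    · intro m _ hm
      have : ¬ i = m := fun h => hm h.symm
      simp [Em, hij, this]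
    · intro h; exact absurd (Finset.mem_univ _) h

theorem Em_tri (n : Fin r → ℕ) (j : Fin r) (c : Fin r → k) (h : ∀ l, c l ≠ 0 → n l ≤ n j) :
    Tri n (Em j c) := by
  intro i m hm
  simp only [Em, Matrix.of_apply] at hm
  split_ifs at hm with h1 h2
  · rw [h1]; exact h m hm
  · rw [h2]
  · exact absurd rfl hm

theorem Ei_tri (n : Fin r → ℕ) (j : Fin r) (c : Fin r → k) (h : ∀ l, c l ≠ 0 → n l ≤ n j) :
    Tri n (Ei j c) := by
  intro i m hm
  simp only [Ei, Matrix.of_apply] at hm
  split_ifs at hm with h1 h2 h3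
  · rw [h1, h2]
  · rw [h1]; exact h m (right_ne_zero_of_mul hm)
  · rw [h3]
  · exact absurd rfl hm

theorem Em_row (j : Fin r) (c : Fin r → k) (M : Matrix (Fin r) (Fin r) k) :
    (Em j c * M) j = ∑ l, c l • M l := by
  ext m
  rw [Matrix.mul_apply, Finset.sum_apply]
  refine Finset.sum_congr rfl fun l _ => ?_
  simp [Em]

theorem Em_row_ne (j : Fin r) (c : Fin r → k) (M : Matrix (Fin r) (Fin r) k) (i : Fin r)
    (hij : i ≠ j) : (Em j c * M) i = M i := by
  ext m
  rw [Matrix.mul_apply, Finset.sum_eq_single i]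
  · simp [Em, hij]
  · intro l _ hl
    have : ¬ i = l := fun h => hl h.symm
    simp [Em, hij, this]
  · intro h; exact absurd (Finset.mem_univ _) h

theorem row_ne {M M' : Matrix (Fin r) (Fin r) k} (h : M * M' = 1) (i : Fin r) : M i ≠ 0 := by
  intro h0
  have h1 : (M * M') i i = 1 := by rw [h, Matrix.one_apply_eq]
  rw [Matrix.mul_apply] at h1
  have h2 : ∀ m ∈ (Finset.univ : Finset (Fin r)), M i m * M' m i = 0 := by
    intro m _
    rw [h0]; simp
  rw [Finset.sum_eq_zero h2] at h1
  exact zero_ne_one h1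

end

/-- (AD) -/
theorem t_AD : S_AD.{u} := by
  intro k _ r d T n hT hc
  classical
  have hex : ∀ c : Fin r → k, c ≠ 0 → ∃ s, T s c ≠ 0 := by
    intro c h
    obtain ⟨s, _, h2, _⟩ := hc c h
    exact ⟨s, h2⟩
  have hlev : ∀ c : Fin r → k, c ≠ 0 → ∀ j, c j ≠ 0 → lev T c + d < n j := by
    intro c h j hj
    obtain ⟨s, h1, h2, h3⟩ := hc c h
    rw [lev_eq T c s h1 h2]
    exact h3 j hj
  set S : Set ℕ := {φ | ∃ M M' : Matrix (Fin r) (Fin r) k, M * M' = 1 ∧ M' * M = 1 ∧ Tri n M ∧
    Tri n M' ∧ φ = ∑ i, lev T (M i)} with hS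
  have hne : S.Nonempty := ⟨_, 1, 1, by simp, by simp, Tri.one, Tri.one, rfl⟩
  have hbd : BddAbove S := by
    refine ⟨∑ _i : Fin r, ∑ j, n j, ?_⟩
    rintro φ ⟨M, M', h1, _, _, _, rfl⟩
    refine Finset.sum_le_sum fun i _ => ?_
    obtain ⟨j, hj⟩ := Function.ne_iff.1 (row_ne h1 i)
    have h2 := hlev (M i) (row_ne h1 i) j hj
    have h3 : n j ≤ ∑ j, n j := Finset.single_le_sum (fun _ _ => Nat.zero_le _) (Finset.mem_univ j)
    omega
  obtain ⟨M, M', h1, h2, h3, h4, h5⟩ := Nat.sSup_mem hne hbd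
  have hmax : ∀ M2 M2' : Matrix (Fin r) (Fin r) k, M2 * M2' = 1 → M2' * M2 = 1 → Tri n M2 →
      Tri n M2' → ∑ i, lev T (M2 i) ≤ ∑ i, lev T (M i) := by
    intro M2 M2' a1 a2 a3 a4
    rw [← h5]
    exact le_csSup hbd ⟨M2, M2', a1, a2, a3, a4, rfl⟩
  refine ⟨M, M', fun i => lev T (M i), h1, h2, fun i s' h => lev_lt T _ _ h, ?_, ?_, ?_⟩
  · intro c hsum
    by_contra hcne
    obtain ⟨i0, hi0⟩ := Function.ne_iff.1 hcne
    obtain ⟨t, ht⟩ : ∃ t, t = lev T (M i0) := ⟨_, rfl⟩
    obtain ⟨c', hc'⟩ : ∃ c' : Fin r → k, c' = fun i => if lev T (M i) = t then c i else 0 :=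
      ⟨_, rfl⟩
    have hrow : T t (∑ i, c' i • M i) = 0 := by
      rw [map_sum]
      apply wc_ext
      intro v
      rw [map_sum]
      by_cases hv : (FreeMonoid.toList v).sum = t
      · have h6 := congrArg (wc v) hsum
        rw [map_sum, map_zero] at h6
        rw [← h6]
        refine Finset.sum_congr rfl fun i _ => ?_
        rw [map_smul, map_smul, map_smul, hc']
        simp only
        by_cases h7 : lev T (M i) = t
        · rw [if_pos h7, h7]
        · rw [if_neg h7, zero_smul]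
          have h8 : wc v (T (lev T (M i)) (M i)) = 0 := by
            by_contra h9
            exact h7 ((hT _ _ _ h9).symm.trans hv)
          rw [h8, smul_zero]
      · refine Finset.sum_eq_zero fun i _ => ?_
        rw [map_smul, map_smul]
        have h8 : wc v (T t (M i)) = 0 := by
          by_contra h9
          exact hv (hT _ _ _ h9)
        rw [h8, smul_zero]
    have hi0' : c' i0 ≠ 0 := by
      rw [hc']
      simp only
      rw [if_pos ht.symm]
      exact hi0
    obtain ⟨j, hj, hjm⟩ := Finset.exists_max_image (Finset.univ.filter fun i => c' i ≠ 0) n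
      ⟨i0, Finset.mem_filter.2 ⟨Finset.mem_univ _, hi0'⟩⟩
    have hj' : c' j ≠ 0 := (Finset.mem_filter.1 hj).2
    have hjm' : ∀ l, c' l ≠ 0 → n l ≤ n j := fun l hl =>
      hjm l (Finset.mem_filter.2 ⟨Finset.mem_univ _, hl⟩)
    have hEE : Em j c' * Ei j c' = 1 := Em_mul_Ei j c' hj'
    have hEE' : Ei j c' * Em j c' = 1 := mul_eq_one_comm.1 hEE
    have b1 : (Em j c' * M) * (M' * Ei j c') = 1 := by
      rw [Matrix.mul_assoc, ← Matrix.mul_assoc M, h1, Matrix.one_mul, hEE]
    have b2 : (M' * Ei j c') * (Em j c' * M) = 1 := by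
      rw [Matrix.mul_assoc, ← Matrix.mul_assoc (Ei j c'), hEE', Matrix.one_mul, h2]
    have b3 := hmax _ _ b1 b2 ((Em_tri n j c' hjm').mul h3) (h4.mul (Ei_tri n j c' hjm'))
    have hjt : lev T (M j) = t := by
      by_contra h9
      apply hj'
      rw [hc']
      simp only
      rw [if_neg h9]
    have b4 : t < lev T ((Em j c' * M) j) := by
      by_contra h9
      push Not at h9
      apply lev_ne T _ (hex _ (row_ne b1 j))
      rcases h9.lt_or_eq with h10 | h10
      · obtain ⟨s', hs'⟩ : ∃ s', s' = lev T ((Em j c' * M) j) := ⟨_, rfl⟩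
        rw [← hs'] at h10 ⊢
        rw [Em_row, map_sum]
        refine Finset.sum_eq_zero fun i _ => ?_
        rw [map_smul, hc']
        simp only
        by_cases h7 : lev T (M i) = t
        · rw [lev_lt T (M i) s' (by omega), smul_zero]
        · rw [if_neg h7, zero_smul]
      · rw [h10, Em_row]
        exact hrow
    have b5 : ∑ i, lev T (M i) < ∑ i, lev T ((Em j c' * M) i) := by
      refine Finset.sum_lt_sum (fun i _ => ?_) ⟨j, Finset.mem_univ _, by rw [hjt]; exact b4⟩
      by_cases hij : i = j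
      · rw [hij, hjt]; exact b4.le
      · rw [Em_row_ne j c' M i hij]
    omega
  · intro i j hij
    exact hlev (M i) (row_ne h1 i) j hij
  · intro j i hji
    obtain ⟨l, hl⟩ := Function.ne_iff.1 (row_ne h1 i)
    have h6 := hlev (M i) (row_ne h1 i) l hl
    have h7 := h3 i l hl
    have h8 := h4 j i hji
    show lev T (M i) + d < n j
    omega

end Pool.Agent.J4H48.MW
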